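import Pool.Agent.Q32.LR2.Stm

/-!
# Project LR2, job ABS: free action on a tree
-/

set_option autoImplicit false
set_option linter.unusedSectionVars false

namespace Q166.LR2.Abs

open Q32.LR2 Pool.Agent.H97R3.VR Pool.Agent.TH97.VR Filter
open Pointwise

variable {Γ : Type} [Group Γ]

theorem sub_of (b : Γ) (U : Set Γ) (h1 : ∃ N, ∀ n ≥ N, b ^ n ∈ U) (h2 : ∃ N, ∀ n ≥ N, b⁻¹ ^ n ∉ U)
    (hn : Nst (b • U) U) : b • U ⊂ U := by
  obtain ⟨N1, h1⟩ := h1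
  obtain ⟨N2, h2⟩ := h2
  have hm : ∀ x : Γ, x ∈ b • U ↔ b⁻¹ * x ∈ U := fun x => by
    rw [Set.mem_smul_set_iff_inv_smul_mem, smul_eq_mul]
  have hno : ¬ U ⊆ b • U := by
    intro hsub
    have h3 : ∀ k : ℕ, b⁻¹ ^ k * b ^ N1 ∈ U := by
      intro k
      induction k with
      | zero => simpa using h1 N1 le_rfl
      | succ k ih =>
        have := (hm _).1 (hsub ih)
        rwa [← mul_assoc, ← pow_succ'] at this
    have h4 := h3 (N2 + N1)
    rw [pow_add, mul_assoc, inv_pow b N1, inv_mul_cancel, mul_one] at h4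
    exact h2 N2 le_rfl h4
  have hp : b ^ (N1 + 1) ∈ U ∧ b ^ (N1 + 1) ∈ b • U := by
    refine ⟨h1 _ (Nat.le_succ _), (hm _).2 ?_⟩
    rw [pow_succ', inv_mul_cancel_left]
    exact h1 _ le_rfl
  have hq : b⁻¹ ^ N2 ∉ U ∧ b⁻¹ ^ N2 ∉ b • U := by
    refine ⟨h2 _ le_rfl, fun h => ?_⟩
    have := (hm _).1 h
    rw [← pow_succ'] at this
    exact h2 _ (Nat.le_succ _) this
  rcases hn with h | h | h | h
  · exact ⟨h, hno⟩
  · exact absurd hp.1 (h hp.2)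
  · exact absurd (h hq.2) hq.1
  · exact absurd (Set.compl_subset_compl.1 h) hno

/-- the ultrafilter of the powers of `b` -/
noncomputable def pw (b : Γ) : Ultrafilter Γ := (hyperfilter ℕ).map fun n => b ^ n

theorem mem_pw (b : Γ) (U : Set Γ) : U ∈ pw b ↔ {n : ℕ | b ^ n ∈ U} ∈ hyperfilter ℕ := Iff.rfl

theorem cofin_mem {s : Set ℕ} (N : ℕ) (h : ∀ n ≥ N, n ∈ s) : s ∈ hyperfilter ℕ := by
  refine mem_hyperfilter_of_finite_compl ((Set.finite_Iio N).subset fun n hn => ?_)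
  by_contra hc
  exact hn (h n (not_lt.1 hc))

theorem cofin_not {s : Set ℕ} (N : ℕ) (h : ∀ n ≥ N, n ∉ s) : s ∉ hyperfilter ℕ := by
  intro hs
  have h1 : sᶜ ∈ hyperfilter ℕ := cofin_mem N h
  exact Ultrafilter.compl_mem_iff_notMem.1 h1 hs

theorem pw_fin (b : Γ) (hb : Function.Injective fun n : ℕ => b ^ n) (s : Set Γ) (hs : s.Finite) :
    s ∉ pw b := by
  rw [mem_pw]
  exact Set.Finite.notMem_hyperfilter (hs.preimage hb.injOn)

/-- Eventually constant along the powers. -/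
theorem ev_const (b : Γ) (hb : Function.Injective fun n : ℕ => b ^ n) (U : Set Γ)
    (h : {x | ¬ (x ∈ U ↔ x * b ∈ U)}.Finite) :
    (U ∈ pw b → ∃ N, ∀ n ≥ N, b ^ n ∈ U) ∧ (U ∉ pw b → ∃ N, ∀ n ≥ N, b ^ n ∉ U) := by
  have h1 : {n : ℕ | ¬ (b ^ n ∈ U ↔ b ^ (n + 1) ∈ U)}.Finite := by
    have := h.preimage (f := fun n : ℕ => b ^ n) hb.injOn
    simpa only [Set.preimage_ofPred_eq, ← pow_succ] using this
  obtain ⟨M, hM⟩ := h1.bddAbove
  have h2 : ∀ n ≥ M + 1, (b ^ n ∈ U ↔ b ^ (n + 1) ∈ U) := by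
    intro n hn
    by_contra hc
    have := hM hc
    omega
  have h3 : ∀ n ≥ M + 1, (b ^ n ∈ U ↔ b ^ (M + 1) ∈ U) := by
    intro n hn
    induction n, hn using Nat.le_induction with
    | base => rfl
    | succ n hn ih => rw [← h2 n hn, ih]
  constructor
  · intro hp
    refine ⟨M + 1, fun n hn => (h3 n hn).2 ?_⟩
    by_contra hc
    rw [mem_pw] at hp
    exact cofin_not (M + 1) (fun n hn hn' => hc ((h3 n hn).1 hn')) hp
  · intro hp
    refine ⟨M + 1, fun n hn hn' => hp ?_⟩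
    rw [mem_pw]
    exact cofin_mem (M + 1) fun m hm => (h3 m hm).2 ((h3 n hn).1 hn')

theorem inj_inv (b : Γ) (hb : Function.Injective fun n : ℕ => b ^ n) :
    Function.Injective fun n : ℕ => b⁻¹ ^ n := by
  intro m n h
  simp only [inv_pow, inv_inj] at h
  exact hb h

/-- Job ABS. -/
theorem abs : S_ABS := by
  intro f0 f1 ax axc co sh nest tree Γ Y _ _ A _ _ e hfg
  obtain ⟨S, hS⟩ := hfg.out
  have hS' : IsFinGen (S : Set Γ) := ⟨S.finite_toSet, hS⟩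
  obtain ⟨ρ, n0, hρ1, hρ2, hρ3⟩ := axc f0 f1 Γ Y (S : Set Γ) A e S.finite_toSet
  set P : Set (Ultrafilter Γ) := {p | ∀ s : Set Γ, s.Finite → s ∉ p} with hP
  obtain ⟨B, hB1, hB2, hB3, hB4, hB5⟩ := nest Γ (Cay (S : Set Γ)) (cay_conn hS') P n0
  have hPmap : ∀ (σ : Equiv.Perm Γ), ∀ p ∈ P, p.map σ ∈ P := by
    intro σ p hp s hs h1
    exact hp _ (hs.preimage σ.injective.injOn) h1
  have hinv : ∀ g : Γ, ∀ h ∈ B, g • h ∈ B := by
    intro g h hh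
    have h1 := hB5 (Equiv.mulLeft g) (by
      intro x y
      have e1 : (g * x)⁻¹ * (g * y) = x⁻¹ * y := by group
      have e2 : (g * y)⁻¹ * (g * x) = y⁻¹ * x := by group
      show (g * x ≠ g * y ∧ ((g * x)⁻¹ * (g * y) ∈ (S : Set Γ) ∨
        (g * y)⁻¹ * (g * x) ∈ (S : Set Γ))) ↔ (x ≠ y ∧ (x⁻¹ * y ∈ (S : Set Γ) ∨
          y⁻¹ * x ∈ (S : Set Γ)))
      rw [e1, e2]
      simp only [ne_eq, mul_right_inj]) (hPmap _) (hPmap _) h hh
    exact h1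
  obtain ⟨C, hC, T, pt, t1, t2, t3, t4, t5, t6⟩ := tree Γ Γ B ⟨1⟩ hB1 hB2 hinv
  refine ⟨C, hC, T, t1, t2, ?_⟩
  intro a ha x hax
  by_contra hne
  -- powers are distinct
  have hea : e ⟨a, ha⟩ ≠ 1 := by
    intro h
    have h2 : (⟨a, ha⟩ : A) = 1 := by
      apply e.injective
      rw [h, map_one]
    exact hne (congrArg Subtype.val h2)
  have hinj : Function.Injective fun n : ℕ => a ^ n := by
    have h1 : Function.Injective fun n : ℕ => (e ⟨a, ha⟩) ^ n :=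
      injective_pow_iff_not_isOfFinOrder.2 (not_isOfFinOrder_of_isMulTorsionFree hea)
    intro m n h
    apply h1
    simp only
    rw [← map_pow, ← map_pow]
    congr 1
    exact Subtype.ext h
  have hinj' := inj_inv a hinj
  have hpow : ∀ n : ℕ, ρ (a ^ n) = (e ⟨a, ha⟩) ^ n := by
    intro n
    have h1 := hρ1 (⟨a, ha⟩ ^ n) 1
    rw [hρ2, mul_one, mul_one, map_pow] at h1
    exact h1
  have hpow' : ∀ n : ℕ, ρ (a⁻¹ ^ n) = (e ⟨a, ha⟩)⁻¹ ^ n := by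
    intro n
    have h1 := hρ1 (⟨a, ha⟩⁻¹ ^ n) 1
    rw [hρ2, mul_one, mul_one, map_pow, map_inv] at h1
    exact h1
  obtain ⟨g, y, N, hN⟩ := ax Y (e ⟨a, ha⟩) hea
  have hp : pw a ∈ P := fun s hs => pw_fin a hinj s hs
  have hq : pw a⁻¹ ∈ P := fun s hs => pw_fin a⁻¹ hinj' s hs
  have hsep : Sp (pw a) (pw a⁻¹) (ρ ⁻¹' Hs g y) := by
    rcases hN with hN | hN
    · left
      refine ⟨cofin_mem N fun n hn => ?_, cofin_not N fun n hn => ?_⟩
      · show ρ (a ^ n) ∈ Hs g y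
        rw [hpow]
        exact (hN n hn).1
      · show ρ (a⁻¹ ^ n) ∉ Hs g y
        rw [hpow']
        exact (hN n hn).2
    · right
      refine ⟨cofin_not N fun n hn => ?_, cofin_mem N fun n hn => ?_⟩
      · show ρ (a ^ n) ∉ Hs g y
        rw [hpow]
        exact (hN n hn).1
      · show ρ (a⁻¹ ^ n) ∈ Hs g y
        rw [hpow']
        exact (hN n hn).2
  obtain ⟨U, hU, hUs⟩ := hB4 _ hp _ hq _ (hρ3 g y).1 (hρ3 g y).2 hsep
  have hsh : ∀ g : Γ, {x | ¬ (x ∈ U ↔ x * g ∈ U)}.Finite :=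
    sh co Γ (S : Set Γ) hS U (hB3 U hU).1
  have k1 := ev_const a hinj U (hsh a)
  have k2 := ev_const a⁻¹ hinj' U (hsh a⁻¹)
  rcases hUs with ⟨hU1, hU2⟩ | ⟨hU1, hU2⟩
  · have h1 := sub_of a U (k1.1 hU1) (k2.2 hU2) (hB2 _ (hinv a U hU) _ hU)
    exact t6 x a U hU h1 hax
  · have h1 := sub_of a⁻¹ U (k2.1 hU2) (by rw [inv_inv]; exact k1.2 hU1)
      (hB2 _ (hinv a⁻¹ U hU) _ hU)
    refine t6 x a⁻¹ U hU h1 ?_
    rw [inv_smul_eq_iff, hax]

end Q166.LR2.Abs
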