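import Pool.Agent.Q32.LR2.Stm

/-!
# Project LR2, job FIN: the final assembly
-/

set_option autoImplicit false
set_option linter.unusedSectionVars false

namespace Q166.LR2.Fin

open Q32.LR2 Pool.Agent.H97R3.VR Pool.Agent.TH97.VR
open Pointwise

theorem FW_mono {Y : Type} {W W' : Set Y} (h : W ⊆ W') : FW W ≤ FW W' :=
  Subgroup.closure_mono (Set.image_mono h)

theorem fin_letters {Y : Type} (u : FreeGroup Y) : ∃ W : Set Y, W.Finite ∧ u ∈ FW W := by
  induction u using FreeGroup.induction_on with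
  | C1 => exact ⟨∅, Set.finite_empty, Subgroup.one_mem _⟩
  | of a => exact ⟨{a}, Set.finite_singleton a, Subgroup.subset_closure ⟨a, rfl, rfl⟩⟩
  | inv_of a _ => exact ⟨{a}, Set.finite_singleton a, Subgroup.inv_mem _
      (Subgroup.subset_closure ⟨a, rfl, rfl⟩)⟩
  | mul x y hx hy =>
    obtain ⟨W, h1, h2⟩ := hx
    obtain ⟨W', h1', h2'⟩ := hy
    exact ⟨W ∪ W', h1.union h1', Subgroup.mul_mem _ (FW_mono Set.subset_union_left h2)
      (FW_mono Set.subset_union_right h2')⟩

theorem fin_letters' {Y : Type} (T : Set (FreeGroup Y)) (hT : T.Finite) :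
    ∃ W : Set Y, W.Finite ∧ T ⊆ FW W := by
  choose W h1 h2 using fin_letters (Y := Y)
  refine ⟨⋃ t ∈ T, W t, hT.biUnion fun t _ => h1 t, fun t ht => ?_⟩
  exact FW_mono (Set.subset_biUnion_of_mem ht) (h2 t)

theorem fin : S_FIN := by
  intro sub rfg ret abs fix tgt lrt pb all G Y _ _ F H _ _ e hH hFH
  classical
  obtain ⟨s1, s2, s3, s4, s5, s6, s7, s8, s9, s10⟩ := sub G Y F H e
  -- letters
  have hgH : Group.FG H := (Group.fg_iff_subgroup_fg H).2 hH
  have h1 : Group.FG (F.subgroupOf H) := Subgroup.fg_of_index_ne_zero _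
  obtain ⟨T, hT⟩ := h1.out
  obtain ⟨W0, hW0, hW1⟩ := fin_letters' ((fun t : F.subgroupOf H =>
    e ⟨((t : H) : G), t.2⟩) '' (T : Set (F.subgroupOf H))) (T.finite_toSet.image _)
  have hBB : F ⊓ H ≤ BB F e W0 := by
    rintro g ⟨hgF, hgH⟩
    have key : ∀ t : F.subgroupOf H, ((t : H) : G) ∈ BB F e W0 := by
      intro t
      have ht : t ∈ Subgroup.closure (T : Set (F.subgroupOf H)) := by rw [hT]; trivial
      induction ht using Subgroup.closure_induction with
      | mem t ht =>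
        exact (s1 W0 ⟨((t : H) : G), t.2⟩).2 (hW1 ⟨t, ht, rfl⟩)
      | one => exact Subgroup.one_mem _
      | mul x y _ _ hx hy => exact Subgroup.mul_mem _ hx hy
      | inv x _ hx => exact Subgroup.inv_mem _ hx
    exact key ⟨⟨g, hgH⟩, hgF⟩
  -- `LL W0` is finitely generated
  have hBB0 : BB F e ∅ = ⊥ := by
    rw [eq_bot_iff]
    intro g hg
    have hgF := s2 ∅ hg
    have h2 := (s1 ∅ ⟨g, hgF⟩).1 hg
    have h3 : FW (∅ : Set Y) = ⊥ := by
      unfold FW
      rw [Set.image_empty, Subgroup.closure_empty]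
    rw [h3, Subgroup.mem_bot, MulEquiv.map_eq_one_iff] at h2
    rw [Subgroup.mem_bot]
    exact congrArg Subtype.val h2
  have hclo : Clo F H e ∅ := by
    intro h _ g hg
    rw [hBB0, Subgroup.mem_bot] at hg
    rw [hg, mul_one, mul_inv_cancel]
    exact Subgroup.one_mem _
  obtain ⟨R, hR, hAA⟩ := rfg sub ret G Y F H e ∅ W0 hclo hW0 (by rwa [Set.empty_union])
  rw [Set.empty_union, hBB0, bot_sup_eq] at hAA
  have hLfg : (LL F H e W0).FG := by
    unfold LL
    rw [hAA]
    exact hH.sup ⟨hR.toFinset, by rw [Set.Finite.coe_toFinset]⟩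
  have hLfg' : Group.FG (LL F H e W0) := (Group.fg_iff_subgroup_fg _).2 hLfg
  -- the free subgroup
  let j : (F.subgroupOf (LL F H e W0)) →* F :=
    ((LL F H e W0).subtype.comp (F.subgroupOf (LL F H e W0)).subtype).codRestrict F
      (fun a => a.2)
  let f0 : (F.subgroupOf (LL F H e W0)) →* FreeGroup Y := (e : F →* FreeGroup Y).comp j
  have hf0 : Function.Injective f0 := by
    intro a b hab
    have h2 : j a = j b := e.injective hab
    have h3 : (((a : LL F H e W0)) : G) = ((b : LL F H e W0) : G) :=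
      congrArg (fun z : F => (z : G)) h2
    exact Subtype.ext (Subtype.ext h3)
  let e' := (MonoidHom.ofInjective hf0).trans (IsFreeGroup.toFreeGroup f0.range)
  obtain ⟨C, hC, T', hT1, hT2, hT3⟩ := abs (LL F H e W0) _ (F.subgroupOf (LL F H e W0)) e' hLfg'
  -- the target
  let π : LL F H e W0 →* G ⧸ F := (QuotientGroup.mk' F).comp (LL F H e W0).subtype
  have hHL : H ≤ LL F H e W0 := le_sup_left
  have hπs : Function.Surjective π := by
    intro q
    obtain ⟨g, rfl⟩ := QuotientGroup.mk'_surjective F q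
    obtain ⟨k, hk, h, hh, rfl⟩ := hFH g
    refine ⟨⟨h, hHL hh⟩, ?_⟩
    show QuotientGroup.mk' F h = QuotientGroup.mk' F (k * h)
    rw [map_mul]
    have : QuotientGroup.mk' F k = 1 := (QuotientGroup.eq_one_iff k).2 hk
    rw [this, one_mul]
  have hker : ∀ a : LL F H e W0, a ∈ π.ker ↔ (a : G) ∈ F := fun a =>
    QuotientGroup.eq_one_iff (a : G)
  have htor : ∀ a ∈ π.ker, a * a = 1 → a = 1 := by
    intro a ha haa
    have h2 : e ⟨(a : G), (hker a).1 ha⟩ * e ⟨(a : G), (hker a).1 ha⟩ = 1 := by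
      rw [← map_mul, MulEquiv.map_eq_one_iff]
      exact Subtype.ext (congrArg (fun z : LL F H e W0 => (z : G)) haa)
    have h3 : e ⟨(a : G), (hker a).1 ha⟩ = 1 := by
      rw [← sq] at h2
      exact (pow_eq_one_iff_left two_ne_zero).1 h2
    rw [MulEquiv.map_eq_one_iff] at h3
    exact Subtype.ext (congrArg (fun z : F => (z : G)) h3)
  obtain ⟨Y'', θ, φ, hφ, hPr⟩ := tgt fix (LL F H e W0) (G ⧸ F) C T' hT1 hT2 π hπs
    (fun a ha x hx => hT3 a ((hker a).1 ha) x hx) htor
  -- extension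
  have : Finite (G ⧸ F) := inferInstance
  set f : G → FreeGroup Y'' ⋊[(permAut Y'').comp θ] (G ⧸ F) := fun g =>
    if h : g ∈ LL F H e W0 then φ ⟨g, h⟩ else 1 with hf
  have hfv : ∀ (g : G) (h : g ∈ LL F H e W0), f g = φ ⟨g, h⟩ := by
    intro g h
    rw [hf]
    simp only
    rw [dif_pos h]
  have hok : Ok F H e (QuotientGroup.mk' F) SemidirectProduct.inr W0 f := by
    constructor
    · intro a ha b hb
      rw [hfv a ha, hfv b hb, hfv _ (Subgroup.mul_mem _ ha hb), ← map_mul]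
      rfl
    · intro E hE hEL
      have : Finite (E.subgroupOf (LL F H e W0)) :=
        Finite.of_injective (fun x : E.subgroupOf (LL F H e W0) =>
          (⟨((x : LL F H e W0) : G), x.2⟩ : E)) (fun x y hxy =>
            Subtype.ext (Subtype.ext (congrArg (fun z : E => (z : G)) hxy)))
      obtain ⟨n, hn⟩ := hPr (E.subgroupOf (LL F H e W0)) this le_top
      refine ⟨n, fun g hg => ?_⟩
      rw [hfv g (hEL hg)]
      exact hn ⟨g, hEL hg⟩ hg
  obtain ⟨ψ, hψ⟩ := all G (G ⧸ F) _ Y F H e (QuotientGroup.mk' F) SemidirectProduct.inr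
    (QuotientGroup.ker_mk' F) hH hFH W0 hW0 hBB f hok
  have hHm : (H.map ψ).FG := by
    obtain ⟨T2, hT2⟩ := hH
    exact ⟨T2.image ψ, by rw [Finset.coe_image, ← MonoidHom.map_closure, hT2]⟩
  refine pb G _ ψ H ?_ (lrt (G ⧸ F) Y'' θ (H.map ψ) hHm)
  intro h hh h2
  rw [hψ h (hHL hh), hfv h (hHL hh)] at h2
  have h3 : (⟨h, hHL hh⟩ : LL F H e W0) = 1 := hφ (by rw [h2, map_one])
  exact congrArg (fun z : LL F H e W0 => (z : G)) h3

end Q166.LR2.Fin
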