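import Pool.Agent.Q32.LR2.Stm

/-!
# Project LR2, job RFG: relative finite generation
-/

set_option autoImplicit false
set_option linter.unusedSectionVars false

namespace Q166.LR2

open Q32.LR2

variable {Y : Type} [DecidableEq Y]

/-- Composition of the retractions. -/
theorem retr (W : Set Y) (ret : ∀ (C : Subgroup (FreeGroup Y)), ∃ ρ : C →* C, ∀ c : C,
      ((ρ c : C) : FreeGroup Y) ∈ FW W ∧ ((c : FreeGroup Y) ∈ FW W → ρ c = c))
    (l : List (MulAut (FreeGroup Y))) : ∀ D : Subgroup (FreeGroup Y), ∃ ρ : D →* FreeGroup Y,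
      ∀ d : D, ρ d ∈ D ∧ (∀ β ∈ l, β (ρ d) ∈ FW W) ∧ ((∀ β ∈ l, β (d : FreeGroup Y) ∈ FW W) →
        ρ d = d) := by
  induction l with
  | nil =>
    intro D
    exact ⟨D.subtype, fun d => ⟨d.2, fun β hβ => absurd hβ (by simp), fun _ => rfl⟩⟩
  | cons β l ih =>
    intro D
    obtain ⟨ρ0, h0⟩ := ret (D.map (β : FreeGroup Y →* FreeGroup Y))
    let ρ1 : D →* FreeGroup Y :=
      ((β.symm : FreeGroup Y →* FreeGroup Y).comp
        (D.map (β : FreeGroup Y →* FreeGroup Y)).subtype).comp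
        (ρ0.comp ((β : FreeGroup Y →* FreeGroup Y).subgroupMap D))
    have h1 : ∀ d : D, β (ρ1 d) = ρ0 (((β : FreeGroup Y →* FreeGroup Y).subgroupMap D) d) := by
      intro d
      show β (β.symm _) = _
      rw [MulEquiv.apply_symm_apply]
      rfl
    have h2 : ∀ d : D, ρ1 d ∈ D ⊓ (FW W).comap (β : FreeGroup Y →* FreeGroup Y) := by
      intro d
      refine ⟨?_, ?_⟩
      · obtain ⟨x, hx, hx2⟩ := (ρ0 (((β : FreeGroup Y →* FreeGroup Y).subgroupMap D) d)).2
        have : ρ1 d = x := by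
          apply β.injective
          rw [h1]
          exact hx2.symm
        rw [this]
        exact hx
      · show β (ρ1 d) ∈ FW W
        rw [h1]
        exact (h0 _).1
    obtain ⟨ρ', h'⟩ := ih (D ⊓ (FW W).comap (β : FreeGroup Y →* FreeGroup Y))
    refine ⟨ρ'.comp (ρ1.codRestrict _ h2), fun d => ?_⟩
    obtain ⟨a, b, c⟩ := h' (ρ1.codRestrict _ h2 d)
    refine ⟨a.1, ?_, ?_⟩
    · intro γ hγ
      rcases List.mem_cons.1 hγ with rfl | hγ
      · exact a.2
      · exact b γ hγ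
    · intro hd
      have h3 : ρ1 d = d := by
        apply β.injective
        rw [h1]
        have := (h0 (((β : FreeGroup Y →* FreeGroup Y).subgroupMap D) d)).2
          (hd β List.mem_cons_self)
        rw [this]
        rfl
      have h4 : ((ρ1.codRestrict _ h2 d : _) : FreeGroup Y) = d := h3
      show ρ' (ρ1.codRestrict _ h2 d) = d
      rw [c (fun γ hγ => by rw [h4]; exact hd γ (List.mem_cons_of_mem _ hγ)), h4]

section

variable {G : Type} [Group G]

/-- The automorphism of the free group given by the conjugation with `h⁻¹`. -/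
noncomputable def bt (F : Subgroup G) [F.Normal] (e : F ≃* FreeGroup Y) (h : G) :
    MulAut (FreeGroup Y) := (e.symm.trans (MulAut.conjNormal h⁻¹)).trans e

theorem bt_apply (F : Subgroup G) [F.Normal] (e : F ≃* FreeGroup Y) (h : G) (u : FreeGroup Y) :
    ((e.symm (bt F e h u) : F) : G) = h⁻¹ * (e.symm u : F) * h := by
  have h1 : e.symm (bt F e h u) = MulAut.conjNormal h⁻¹ (e.symm u) := by
    show e.symm (e _) = _
    rw [MulEquiv.symm_apply_apply]
    rfl
  rw [h1, MulAut.conjNormal_apply, inv_inv]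

theorem main (sub : S_SUB) (ret : ∀ (Y : Type) [DecidableEq Y] (W : Set Y)
      (C : Subgroup (FreeGroup Y)), ∃ ρ : C →* C, ∀ c : C,
      ((ρ c : C) : FreeGroup Y) ∈ FW W ∧ ((c : FreeGroup Y) ∈ FW W → ρ c = c))
    (F H : Subgroup G)
    [F.Normal] [F.FiniteIndex] (e : F ≃* FreeGroup Y) (Z S : Set Y) (hZ : Clo F H e Z)
    (hS : S.Finite) (hFH : F ⊓ H ≤ BB F e (Z ∪ S)) :
    ∃ R : Set G, R.Finite ∧ AA F H e (Z ∪ S) = BB F e Z ⊔ Subgroup.closure R := by
  classical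
  obtain ⟨s1, s2, s3, s4, s5, s6, s7, s8, s9, s10⟩ := sub G Y F H e
  -- the criterion
  have hbt : ∀ (h : G) (u : FreeGroup Y), bt F e h u ∈ FW (Z ∪ S) ↔
      h⁻¹ * ((e.symm u : F) : G) * h ∈ BB F e (Z ∪ S) := by
    intro h u
    rw [← bt_apply F e h u, s1, MulEquiv.apply_symm_apply]
  have hAA : ∀ u : FreeGroup Y, ((e.symm u : F) : G) ∈ AA F H e (Z ∪ S) ↔
      ∀ h ∈ H, bt F e h u ∈ FW (Z ∪ S) := by
    intro u
    simp only [hbt]
    exact Iff.rfl
  have : Finite (H ⧸ F.subgroupOf H) := inferInstance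
  have : Fintype (H ⧸ F.subgroupOf H) := Fintype.ofFinite _
  set l : List (MulAut (FreeGroup Y)) := (Finset.univ : Finset (H ⧸ F.subgroupOf H)).toList.map
    (fun q => bt F e ((q.out : H) : G)) with hl
  have hcrit : ∀ u : FreeGroup Y, (∀ β ∈ l, β u ∈ FW (Z ∪ S)) ↔
      ((e.symm u : F) : G) ∈ AA F H e (Z ∪ S) := by
    intro u
    rw [hAA]
    constructor
    · intro h1 h hh
      have h2 := h1 (bt F e (((QuotientGroup.mk (⟨h, hh⟩ : H) : H ⧸ F.subgroupOf H).out : H) : G))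
        (by
          rw [hl, List.mem_map]
          exact ⟨_, Finset.mem_toList.2 (Finset.mem_univ _), rfl⟩)
      rw [hbt] at h2 ⊢
      obtain ⟨k, hk⟩ := QuotientGroup.mk_out_eq_mul (F.subgroupOf H) (⟨h, hh⟩ : H)
      have hk1 : ((k : H) : G) ∈ F := k.2
      have hk2 : ((k : H) : G) ∈ BB F e (Z ∪ S) := hFH ⟨hk1, (k : H).2⟩
      rw [hk] at h2
      have h3 : h⁻¹ * ((e.symm u : F) : G) * h = ((k : H) : G) *
          (((⟨h, hh⟩ * (k : H) : H) : G)⁻¹ * ((e.symm u : F) : G) *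
            ((⟨h, hh⟩ * (k : H) : H) : G)) * ((k : H) : G)⁻¹ := by
        simp only [Subgroup.coe_mul]
        group
      rw [h3]
      exact Subgroup.mul_mem _ (Subgroup.mul_mem _ hk2 h2) (Subgroup.inv_mem _ hk2)
    · intro h1 β hβ
      rw [hl, List.mem_map] at hβ
      obtain ⟨q, _, rfl⟩ := hβ
      exact h1 _ (q.out : H).2
  obtain ⟨ρ, hρ⟩ := retr (Z ∪ S) (ret Y (Z ∪ S)) l (FW (Z ∪ S))
  set r : Y → G := fun y => if h : FreeGroup.of y ∈ FW (Z ∪ S) then
    ((e.symm (ρ ⟨FreeGroup.of y, h⟩) : F) : G) else 1 with hr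
  have hgen : ∀ y ∈ Z ∪ S, FreeGroup.of y ∈ FW (Z ∪ S) := fun y hy =>
    Subgroup.subset_closure ⟨y, hy, rfl⟩
  have hBZ : BB F e Z ≤ AA F H e (Z ∪ S) := by
    rw [s9 Z hZ]
    exact (s4 Z (Z ∪ S) Set.subset_union_left).1
  refine ⟨r '' S, hS.image _, le_antisymm ?_ ?_⟩
  · intro g hg
    have hgF : g ∈ F := s2 _ (s3 _ hg)
    have hgW : e ⟨g, hgF⟩ ∈ FW (Z ∪ S) := (s1 _ ⟨g, hgF⟩).1 (s3 _ hg)
    have key : ∀ (u : FreeGroup Y) (hu : u ∈ FW (Z ∪ S)),
        ((e.symm (ρ ⟨u, hu⟩) : F) : G) ∈ BB F e Z ⊔ Subgroup.closure (r '' S) := by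
      intro u hu
      refine Subgroup.closure_induction (k := FreeGroup.of '' (Z ∪ S))
        (p := fun u hu => ((e.symm (ρ ⟨u, hu⟩) : F) : G) ∈
          BB F e Z ⊔ Subgroup.closure (r '' S)) ?_ ?_ ?_ ?_ hu
      · rintro _ ⟨y, hy, rfl⟩
        by_cases hyZ : y ∈ Z
        · have h1 : ((e.symm (FreeGroup.of y) : F) : G) ∈ BB F e Z := by
            rw [s1, MulEquiv.apply_symm_apply]
            exact Subgroup.subset_closure ⟨y, hyZ, rfl⟩
          have h2 := (hρ ⟨FreeGroup.of y, hgen y hy⟩).2.2 ((hcrit _).2 (hBZ h1))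
          rw [h2]
          exact Subgroup.mem_sup_left h1
        · have hyS : y ∈ S := hy.resolve_left hyZ
          refine Subgroup.mem_sup_right (Subgroup.subset_closure ⟨y, hyS, ?_⟩)
          rw [hr]
          simp only
          rw [dif_pos (hgen y hy)]
      · have h1 : (⟨1, Subgroup.one_mem _⟩ : FW (Z ∪ S)) = 1 := rfl
        rw [h1, map_one, map_one]
        exact Subgroup.one_mem _
      · intro x y hx hy h1 h2
        have h3 : (⟨x * y, Subgroup.mul_mem _ hx hy⟩ : FW (Z ∪ S)) = ⟨x, hx⟩ * ⟨y, hy⟩ := rfl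
        rw [h3, map_mul, map_mul]
        exact Subgroup.mul_mem _ h1 h2
      · intro x hx h1
        have h3 : (⟨x⁻¹, Subgroup.inv_mem _ hx⟩ : FW (Z ∪ S)) = ⟨x, hx⟩⁻¹ := rfl
        rw [h3, map_inv, map_inv]
        exact Subgroup.inv_mem _ h1
    have h1 := key _ hgW
    have h2 := (hρ ⟨e ⟨g, hgF⟩, hgW⟩).2.2 ((hcrit _).2 (by
      show ((e.symm (e ⟨g, hgF⟩) : F) : G) ∈ _
      rw [MulEquiv.symm_apply_apply]
      exact hg))
    rw [h2] at h1
    have h3 : ((e.symm (e ⟨g, hgF⟩) : F) : G) = g := by rw [MulEquiv.symm_apply_apply]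
    rwa [← h3]
  · refine sup_le hBZ ?_
    rw [Subgroup.closure_le]
    rintro _ ⟨y, hy, rfl⟩
    rw [hr]
    simp only
    rw [dif_pos (hgen y (Or.inr hy))]
    exact (hcrit _).1 (hρ ⟨FreeGroup.of y, hgen y (Or.inr hy)⟩).2.1

/-- Job RFG. The premise `S_RET` is an implication itself, so its premises are needed. -/
theorem rfg (f0 : S_F0) (f1 : S_F1) (f2 : S_F2) (f3 : S_F3) (tree : S_TREE) (fix : S_FIX)
    (nb : S_NB) (ext : S_EXT) : S_RFG :=
  fun sub ret _ _ _ _ F H _ _ e Z S hZ hS hFH =>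
    main sub (ret f0 f1 f2 f3 tree fix nb ext) F H e Z S hZ hS hFH

end

end Q166.LR2
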